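import Mathlib

set_option autoImplicit false

open Finset

namespace Pool.Agent.H35.Corners

variable {N : ℕ} [NeZero N]

/-- Unnormalised Fourier transform on `ZMod N`. -/
noncomputable def ft (a : ZMod N → ℂ) (r : ZMod N) : ℂ :=
  ∑ x, a x * (ZMod.stdAddChar (r * x) : ℂ)

lemma sum_char (t : ZMod N) :
    ∑ i : ZMod N, (ZMod.stdAddChar (t * i) : ℂ) = if t = 0 then (N : ℂ) else 0 := by
  split_ifs with h
  · simp [h, ZMod.card]
  · exact AddChar.sum_eq_zero_of_ne_one (ZMod.isPrimitive_stdAddChar N h)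

lemma trilinear (a b c : ZMod N → ℂ) :
    (N : ℂ) * ∑ x, ∑ y, a x * b y * c (x + y) = ∑ r, ft a r * ft b r * ft c (-r) := by
  have h1 : ∀ r : ZMod N, ft a r * ft b r * ft c (-r) =
      ∑ x, ∑ y, ∑ z, (a x * b y * c z) * (ZMod.stdAddChar ((x + y - z) * r) : ℂ) := by
    intro r
    unfold ft
    rw [Finset.sum_mul_sum, Finset.sum_mul]
    refine Finset.sum_congr rfl fun x _ => ?_
    rw [Finset.sum_mul]
    refine Finset.sum_congr rfl fun y _ => ?_
    rw [Finset.mul_sum]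
    refine Finset.sum_congr rfl fun z _ => ?_
    have : (x + y - z) * r = r * x + r * y + (-r) * z := by ring
    rw [this, AddChar.map_add_eq_mul, AddChar.map_add_eq_mul]
    ring
  simp_rw [h1]
  rw [Finset.mul_sum]
  conv_rhs => rw [Finset.sum_comm]
  refine Finset.sum_congr rfl fun x _ => ?_
  rw [Finset.mul_sum]
  conv_rhs => rw [Finset.sum_comm]
  refine Finset.sum_congr rfl fun y _ => ?_
  conv_rhs => rw [Finset.sum_comm]
  have h2 : ∀ z : ZMod N, ∑ r : ZMod N, (a x * b y * c z) * (ZMod.stdAddChar ((x + y - z) * r) : ℂ)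
      = (a x * b y * c z) * (if x + y - z = 0 then (N : ℂ) else 0) := by
    intro z
    rw [← Finset.mul_sum, sum_char]
  simp_rw [h2]
  rw [Finset.sum_eq_single (x + y)]
  · simp; ring
  · intro z _ hz
    rw [if_neg]
    · simp
    · intro h
      exact hz (sub_eq_zero.mp h).symm
  · simp

lemma parseval (a : ZMod N → ℂ) :
    ∑ r, ‖ft a r‖ ^ 2 = N * ∑ x, ‖a x‖ ^ 2 := by
  have h0 := trilinear a (fun y => if y = 0 then 1 else 0) (fun x => (starRingEnd ℂ) (a x))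
  have hd : ∀ r : ZMod N, ft (fun y : ZMod N => if y = 0 then (1 : ℂ) else 0) r = 1 := by
    intro r
    unfold ft
    simp
  have hc : ∀ r : ZMod N, ft (fun x => (starRingEnd ℂ) (a x)) (-r) = (starRingEnd ℂ) (ft a r) := by
    intro r
    unfold ft
    rw [map_sum]
    refine Finset.sum_congr rfl fun x _ => ?_
    rw [map_mul (starRingEnd ℂ), neg_mul, AddChar.map_neg_eq_conj]
  simp_rw [hd, hc] at h0
  have h1 : ((∑ r, ‖ft a r‖ ^ 2 : ℝ) : ℂ) = ((N * ∑ x, ‖a x‖ ^ 2 : ℝ) : ℂ) := by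
    push_cast
    have e1 : ∀ r, ft a r * 1 * (starRingEnd ℂ) (ft a r) = (‖ft a r‖ : ℂ) ^ 2 := by
      intro r
      rw [mul_one, Complex.mul_conj, Complex.normSq_eq_norm_sq]
      push_cast; rfl
    simp_rw [e1] at h0
    rw [← h0]
    congr 1
    refine Finset.sum_congr rfl fun x _ => ?_
    rw [Finset.sum_eq_single 0]
    · simp only [if_true, mul_one, add_zero]
      rw [Complex.mul_conj, Complex.normSq_eq_norm_sq]
      push_cast; rfl
    · intro y _ hy
      simp [hy]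
    · simp
  exact_mod_cast h1

/-- The main bound: if `|a|,|b| ≤ 1` and `|ĉ| ≤ K` everywhere then
`|∑ a(x) b(y) c(x+y)| ≤ K N`. -/
lemma trilinear_bound (a b c : ZMod N → ℂ) (K : ℝ)
    (ha : ∀ x, ‖a x‖ ≤ 1) (hb : ∀ x, ‖b x‖ ≤ 1) (hc : ∀ r, ‖ft c r‖ ≤ K) :
    ‖∑ x, ∑ y, a x * b y * c (x + y)‖ ≤ K * N := by
  have hN : (0 : ℝ) < N := by exact_mod_cast Nat.pos_of_ne_zero (NeZero.ne N)
  have hK : 0 ≤ K := le_trans (norm_nonneg _) (hc 0)
  have hsum : ∀ d : ZMod N → ℂ, (∀ x, ‖d x‖ ≤ 1) → ∑ r, ‖ft d r‖ ^ 2 ≤ (N : ℝ) * N := by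
    intro d hd
    rw [parseval]
    refine mul_le_mul_of_nonneg_left ?_ hN.le
    calc ∑ x, ‖d x‖ ^ 2 ≤ ∑ _x : ZMod N, (1 : ℝ) :=
          Finset.sum_le_sum fun x _ => by
            have := hd x
            have h0 := norm_nonneg (d x)
            nlinarith
      _ = N := by simp [ZMod.card]
  have h1 : (N : ℝ) * ‖∑ x, ∑ y, a x * b y * c (x + y)‖ ≤ K * (N * N) := by
    calc (N : ℝ) * ‖∑ x, ∑ y, a x * b y * c (x + y)‖
        = ‖(N : ℂ) * ∑ x, ∑ y, a x * b y * c (x + y)‖ := by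
          rw [norm_mul]; simp
      _ = ‖∑ r, ft a r * ft b r * ft c (-r)‖ := by rw [trilinear]
      _ ≤ ∑ r, ‖ft a r * ft b r * ft c (-r)‖ := norm_sum_le _ _
      _ ≤ ∑ r, K * ((‖ft a r‖ ^ 2 + ‖ft b r‖ ^ 2) / 2) := by
          refine Finset.sum_le_sum fun r _ => ?_
          rw [norm_mul, norm_mul]
          have h2 := hc (-r)
          have h3 : ‖ft a r‖ * ‖ft b r‖ ≤ (‖ft a r‖ ^ 2 + ‖ft b r‖ ^ 2) / 2 := by
            nlinarith [sq_nonneg (‖ft a r‖ - ‖ft b r‖)]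
          have h4 : 0 ≤ ‖ft a r‖ * ‖ft b r‖ := by positivity
          calc ‖ft a r‖ * ‖ft b r‖ * ‖ft c (-r)‖ ≤ ‖ft a r‖ * ‖ft b r‖ * K :=
                mul_le_mul_of_nonneg_left h2 h4
            _ ≤ _ := by rw [mul_comm]; exact mul_le_mul_of_nonneg_left h3 hK
      _ = K * ((∑ r, ‖ft a r‖ ^ 2 + ∑ r, ‖ft b r‖ ^ 2) / 2) := by
          rw [← Finset.mul_sum, ← Finset.sum_div, Finset.sum_add_distrib]
      _ ≤ K * (N * N) := by
          refine mul_le_mul_of_nonneg_left ?_ hK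
          have := hsum a ha
          have := hsum b hb
          linarith
  have h2 : (N : ℝ) * ‖∑ x, ∑ y, a x * b y * c (x + y)‖ ≤ N * (K * N) := by
    calc _ ≤ K * (N * N) := h1
      _ = N * (K * N) := by ring
  exact le_of_mul_le_mul_left h2 hN

end Pool.Agent.H35.Corners
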