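import Mathlib
import Pool.Agent.H35.CornersFourier

set_option autoImplicit false

open Finset

namespace Pool.Agent.H35.Corners

variable {N : ℕ} [NeZero N]

/-- `∑ f(x) f(y) f(x+y)`. -/
noncomputable def T1 (f : ZMod N → ℝ) : ℝ := ∑ x, ∑ y, f x * f y * f (x + y)

/-- `∑_d (∑_x f(x) f(x+d))²`. -/
noncomputable def Q1 (f : ZMod N → ℝ) : ℝ := ∑ d, (∑ x, f x * f (x + d)) ^ 2

lemma real_trilinear_bound (a b c : ZMod N → ℝ) (K : ℝ)
    (ha : ∀ x, |a x| ≤ 1) (hb : ∀ x, |b x| ≤ 1)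
    (hc : ∀ r, ‖ft (fun x => (c x : ℂ)) r‖ ≤ K) :
    |∑ x, ∑ y, a x * b y * c (x + y)| ≤ K * N := by
  have h := trilinear_bound (fun x => (a x : ℂ)) (fun x => (b x : ℂ)) (fun x => (c x : ℂ)) K
    (fun x => by simpa using ha x) (fun x => by simpa using hb x) hc
  have h2 : (∑ x, ∑ y, (a x : ℂ) * (b y : ℂ) * (c (x + y) : ℂ)) =
      ((∑ x, ∑ y, a x * b y * c (x + y) : ℝ) : ℂ) := by push_cast; rfl
  rw [h2, Complex.norm_real, Real.norm_eq_abs] at h
  exact h

lemma sum_shift (u : ZMod N → ℝ) (d : ZMod N) : ∑ x, u (x + d) = ∑ x, u x :=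
  Fintype.sum_equiv (Equiv.addRight d) _ _ (fun _ => rfl)

lemma sum_shift' (u : ZMod N → ℝ) (d : ZMod N) : ∑ x, u (d + x) = ∑ x, u x :=
  Fintype.sum_equiv (Equiv.addLeft d) _ _ (fun _ => rfl)

lemma T1_bound (f : ZMod N → ℝ) (K : ℝ) (hf : ∀ x, |f x| ≤ 1)
    (hK : ∀ r, ‖ft (fun x => ((f x - 1 / 3 : ℝ) : ℂ)) r‖ ≤ K) :
    |T1 f - (∑ x, f x) ^ 2 / 3| ≤ K * N := by
  have h := real_trilinear_bound f f (fun x => f x - 1 / 3) K hf hf hK
  have h2 : T1 f - (∑ x, f x) ^ 2 / 3 = ∑ x, ∑ y, f x * f y * (f (x + y) - 1 / 3) := by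
    unfold T1
    have e : (∑ x, f x) ^ 2 / 3 = ∑ x, ∑ y, f x * f y * (1 / 3) := by
      rw [sq, Finset.sum_mul_sum, Finset.sum_div]
      refine Finset.sum_congr rfl fun x _ => ?_
      rw [Finset.sum_div]
      refine Finset.sum_congr rfl fun y _ => ?_
      ring
    rw [e, ← Finset.sum_sub_distrib]
    refine Finset.sum_congr rfl fun x _ => ?_
    rw [← Finset.sum_sub_distrib]
    refine Finset.sum_congr rfl fun y _ => ?_
    ring
  rw [h2]
  exact h

lemma sum_corr (f : ZMod N → ℝ) : ∑ d, ∑ x, f x * f (x + d) = (∑ x, f x) ^ 2 := by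
  rw [Finset.sum_comm, sq, Finset.sum_mul]
  refine Finset.sum_congr rfl fun x _ => ?_
  rw [← Finset.mul_sum, sum_shift']

lemma Q1_bound (f : ZMod N → ℝ) (K : ℝ) (hf : ∀ x, |f x| ≤ 1)
    (hK : ∀ r, ‖ft (fun x => ((f x - 1 / 3 : ℝ) : ℂ)) r‖ ≤ K) :
    |Q1 f - (∑ x, f x) ^ 3 / 3| ≤ K * N * N := by
  have hN : (0 : ℝ) < N := by exact_mod_cast Nat.pos_of_ne_zero (NeZero.ne N)
  set G : ZMod N → ℝ := fun d => (∑ x, f x * f (x + d)) / N with hG
  have hG1 : ∀ d, |G d| ≤ 1 := by
    intro d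
    rw [hG]
    simp only
    rw [abs_div, abs_of_pos hN, div_le_one hN]
    calc |∑ x, f x * f (x + d)| ≤ ∑ x, |f x * f (x + d)| := Finset.abs_sum_le_sum_abs _ _
      _ ≤ ∑ _x : ZMod N, (1 : ℝ) := Finset.sum_le_sum fun x _ => by
          rw [abs_mul]
          exact mul_le_one₀ (hf _) (abs_nonneg _) (hf _)
      _ = N := by simp [ZMod.card]
  have h := real_trilinear_bound f G (fun x => f x - 1 / 3) K hf hG1 hK
  have hGs : ∑ d, G d = (∑ x, f x) ^ 2 / N := by
    rw [hG, ← Finset.sum_div, sum_corr]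
  have h2 : Q1 f - (∑ x, f x) ^ 3 / 3
      = N * ∑ x, ∑ y, f x * G y * (f (x + y) - 1 / 3) := by
    have e1 : ∑ x, ∑ y, f x * G y * (f (x + y) - 1 / 3)
        = ∑ x, ∑ y, f x * G y * f (x + y) - (1 / 3) * ((∑ x, f x) * ∑ y, G y) := by
      rw [Finset.sum_mul_sum, Finset.mul_sum, ← Finset.sum_sub_distrib]
      refine Finset.sum_congr rfl fun x _ => ?_
      rw [Finset.mul_sum, ← Finset.sum_sub_distrib]
      refine Finset.sum_congr rfl fun y _ => ?_
      ring
    have e2 : (N : ℝ) * ∑ x, ∑ y, f x * G y * f (x + y) = Q1 f := by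
      unfold Q1
      rw [Finset.sum_comm, Finset.mul_sum]
      refine Finset.sum_congr rfl fun y _ => ?_
      have : ∑ x, f x * G y * f (x + y) = G y * ∑ x, f x * f (x + y) := by
        rw [Finset.mul_sum]
        refine Finset.sum_congr rfl fun x _ => ?_
        ring
      rw [this, hG]
      field_simp
    rw [e1, mul_sub, e2, hGs]
    field_simp
  rw [h2, abs_mul, abs_of_pos hN]
  calc (N : ℝ) * |∑ x, ∑ y, f x * G y * (f (x + y) - 1 / 3)| ≤ N * (K * N) :=
        mul_le_mul_of_nonneg_left h hN.le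
    _ = K * N * N := by ring

lemma triple_sum (f : ZMod N → ℝ) (h : ZMod N) (hh : 2 * h = 1) :
    ∑ x, ∑ y, ∑ d, f (x + y) * f (x + d) * f (y + d) = (∑ x, f x) ^ 3 := by
  let e : (ZMod N × ZMod N × ZMod N) ≃ (ZMod N × ZMod N × ZMod N) :=
    { toFun := fun t => (t.1 + t.2.1, t.1 + t.2.2, t.2.1 + t.2.2)
      invFun := fun t => (h * (t.1 + t.2.1 - t.2.2), h * (t.1 + t.2.2 - t.2.1),
        h * (t.2.1 + t.2.2 - t.1))
      left_inv := by
        rintro ⟨x, y, d⟩
        simp only [Prod.mk.injEq]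
        refine ⟨?_, ?_, ?_⟩
        · linear_combination x * hh
        · linear_combination y * hh
        · linear_combination d * hh
      right_inv := by
        rintro ⟨x, y, d⟩
        simp only [Prod.mk.injEq]
        refine ⟨?_, ?_, ?_⟩
        · linear_combination x * hh
        · linear_combination y * hh
        · linear_combination d * hh }
  have h1 : ∑ x, ∑ y, ∑ d, f (x + y) * f (x + d) * f (y + d)
      = ∑ t : ZMod N × ZMod N × ZMod N, f (e t).1 * f (e t).2.1 * f (e t).2.2 := by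
    rw [Fintype.sum_prod_type]
    refine Finset.sum_congr rfl fun x _ => ?_
    rw [Fintype.sum_prod_type]
    rfl
  rw [h1, Equiv.sum_comp e (fun t => f t.1 * f t.2.1 * f t.2.2), Fintype.sum_prod_type]
  have h2 : (∑ x, f x) ^ 3 = ∑ x, ∑ y, ∑ z, f x * f y * f z := by
    have : (∑ x, f x) ^ 3 = (∑ x, f x) * (∑ x, f x) * (∑ x, f x) := by ring
    rw [this, Finset.sum_mul_sum, Finset.sum_mul]
    refine Finset.sum_congr rfl fun x _ => ?_
    rw [Finset.sum_mul]
    refine Finset.sum_congr rfl fun y _ => ?_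
    rw [Finset.mul_sum]
  rw [h2]
  refine Finset.sum_congr rfl fun x _ => ?_
  rw [Fintype.sum_prod_type]

/-- The set `A`. -/
noncomputable def setA (f : ZMod N → ℝ) : Finset (ZMod N × ZMod N) :=
  Finset.univ.filter (fun v => f v.1 * f v.2 * f (v.1 + v.2) = -1)

lemma ind_eq (f : ZMod N → ℝ) (hf : ∀ x, f x = 1 ∨ f x = -1) (x y : ZMod N) :
    (if (x, y) ∈ setA f then (1 : ℝ) else 0) = (1 - f x * f y * f (x + y)) / 2 := by
  unfold setA
  simp only [Finset.mem_filter, Finset.mem_univ, true_and]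
  rcases hf x with h1 | h1 <;> rcases hf y with h2 | h2 <;> rcases hf (x + y) with h3 | h3 <;>
    rw [h1, h2, h3] <;> norm_num

lemma card_setA (f : ZMod N → ℝ) (hf : ∀ x, f x = 1 ∨ f x = -1) :
    ((setA f).card : ℝ) = ((N : ℝ) ^ 2 - T1 f) / 2 := by
  have h1 : ((setA f).card : ℝ) = ∑ x, ∑ y, (if (x, y) ∈ setA f then (1 : ℝ) else 0) := by
    rw [← Fintype.sum_prod_type (f := fun v : ZMod N × ZMod N =>
      if v ∈ setA f then (1 : ℝ) else 0)]
    simp
  rw [h1]
  simp_rw [ind_eq f hf]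
  unfold T1
  simp only [← Finset.sum_div, Finset.sum_sub_distrib, Finset.sum_const, Finset.card_univ,
    ZMod.card, nsmul_eq_mul, mul_one]
  ring

/-- Corner count of `A` (triples `(x,y,d)`). -/
lemma corner_count (f : ZMod N → ℝ) (hf : ∀ x, f x = 1 ∨ f x = -1) (h : ZMod N)
    (hh : 2 * h = 1) :
    (((Finset.univ : Finset (ZMod N × ZMod N × ZMod N)).filter
      (fun t : ZMod N × ZMod N × ZMod N =>
        (t.1, t.2.1) ∈ setA f ∧ (t.1 + t.2.2, t.2.1) ∈ setA f ∧
          (t.1, t.2.1 + t.2.2) ∈ setA f)).card : ℝ)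
      = ((N : ℝ) ^ 3 - 3 * (N * T1 f) + 3 * Q1 f - (∑ x, f x) ^ 3) / 8 := by
  have hsq : ∀ x, f x * f x = 1 := by
    intro x
    rcases hf x with h1 | h1 <;> rw [h1] <;> norm_num
  have h1 : (((Finset.univ : Finset (ZMod N × ZMod N × ZMod N)).filter
      (fun t : ZMod N × ZMod N × ZMod N =>
        (t.1, t.2.1) ∈ setA f ∧ (t.1 + t.2.2, t.2.1) ∈ setA f ∧
          (t.1, t.2.1 + t.2.2) ∈ setA f)).card : ℝ)
      = ∑ x, ∑ y, ∑ d, (1 - f x * f y * f (x + y)) / 2 *
          ((1 - f (x + d) * f y * f (x + d + y)) / 2) *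
          ((1 - f x * f (y + d) * f (x + (y + d))) / 2) := by
    rw [Finset.card_filter]
    push_cast
    rw [Fintype.sum_prod_type]
    refine Finset.sum_congr rfl fun x _ => ?_
    rw [Fintype.sum_prod_type]
    refine Finset.sum_congr rfl fun y _ => ?_
    refine Finset.sum_congr rfl fun d _ => ?_
    rw [← ind_eq f hf, ← ind_eq f hf, ← ind_eq f hf]
    simp only
    by_cases a1 : (x, y) ∈ setA f <;> by_cases a2 : (x + d, y) ∈ setA f <;>
      by_cases a3 : (x, y + d) ∈ setA f <;> simp [a1, a2, a3]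
  rw [h1]
  have hexp : ∀ x y d : ZMod N, (1 - f x * f y * f (x + y)) / 2 *
          ((1 - f (x + d) * f y * f (x + d + y)) / 2) *
          ((1 - f x * f (y + d) * f (x + (y + d))) / 2)
      = (1 - f x * f y * f (x + y) - f (x + d) * f y * f (x + d + y)
          - f x * f (y + d) * f (x + (y + d))
          + f x * f (x + y) * (f (x + d) * f (x + d + y))
          + f y * f (y + x) * (f (y + d) * f (y + d + x))
          + f x * f (x + d) * (f y * f (y + d))
          - f (x + y) * f (x + d) * f (y + d)) / 8 := by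
    intro x y d
    have e1 : x + (y + d) = x + d + y := by ring
    have e2 : y + x = x + y := by ring
    have e3 : y + d + x = x + d + y := by ring
    rw [e1, e2, e3]
    have q1 := hsq x
    have q2 := hsq y
    have q3 := hsq (x + d + y)
    generalize f x = a at *
    generalize f y = b at *
    generalize f (x + d + y) = c at *
    generalize f (x + y) = u
    generalize f (x + d) = v
    generalize f (y + d) = w
    have q1' : a ^ 2 = 1 := by rw [sq]; exact q1
    have q2' : b ^ 2 = 1 := by rw [sq]; exact q2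
    have q3' : c ^ 2 = 1 := by rw [sq]; exact q3
    have : (1 - a * b * u) / 2 * ((1 - v * b * c) / 2) * ((1 - a * w * c) / 2) =
      (1 - a * b * u - v * b * c - a * w * c + a * u * (v * c) * b ^ 2 + b * u * (w * c) * a ^ 2
        + a * v * (b * w) * c ^ 2 - u * v * w * (a ^ 2 * b ^ 2 * c ^ 2)) / 8 := by ring
    rw [this, q1', q2', q3']
    ring
  simp_rw [hexp]
  simp only [← Finset.sum_div, Finset.sum_sub_distrib, Finset.sum_add_distrib]
  have s0 : ∑ _x : ZMod N, ∑ _y : ZMod N, ∑ _d : ZMod N, (1 : ℝ) = (N : ℝ) ^ 3 := by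
    simp only [Finset.sum_const, Finset.card_univ, ZMod.card, nsmul_eq_mul, mul_one]
    ring
  have s1 : ∑ x, ∑ y, ∑ _d : ZMod N, f x * f y * f (x + y) = N * T1 f := by
    unfold T1
    simp only [Finset.sum_const, Finset.card_univ, ZMod.card, nsmul_eq_mul, Finset.mul_sum]
  have s2 : ∑ x, ∑ y, ∑ d, f (x + d) * f y * f (x + d + y) = N * T1 f := by
    have : ∀ x : ZMod N, ∑ y, ∑ d, f (x + d) * f y * f (x + d + y) = T1 f := by
      intro x
      rw [Finset.sum_comm]
      unfold T1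
      exact sum_shift' (fun z => ∑ y, f z * f y * f (z + y)) x
    simp_rw [this]
    simp [ZMod.card]
  have s3 : ∑ x, ∑ y, ∑ d, f x * f (y + d) * f (x + (y + d)) = N * T1 f := by
    unfold T1
    rw [Finset.mul_sum]
    refine Finset.sum_congr rfl fun x _ => ?_
    have : ∀ y : ZMod N, ∑ d, f x * f (y + d) * f (x + (y + d)) = ∑ z, f x * f z * f (x + z) := by
      intro y
      exact sum_shift' (fun z => f x * f z * f (x + z)) y
    simp_rw [this]
    simp [ZMod.card]
  have hcor : ∀ e : ZMod N, ∑ x, ∑ d, f x * f (x + e) * (f (x + d) * f (x + d + e))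
      = (∑ x, f x * f (x + e)) ^ 2 := by
    intro e
    rw [sq, Finset.sum_mul]
    refine Finset.sum_congr rfl fun x _ => ?_
    rw [← Finset.mul_sum]
    congr 1
    exact sum_shift' (fun z => f z * f (z + e)) x
  have s4 : ∑ x, ∑ y, ∑ d, f x * f (x + y) * (f (x + d) * f (x + d + y)) = Q1 f := by
    rw [Finset.sum_comm]
    unfold Q1
    exact Finset.sum_congr rfl fun y _ => hcor y
  have s5 : ∑ x, ∑ y, ∑ d, f y * f (y + x) * (f (y + d) * f (y + d + x)) = Q1 f := by
    unfold Q1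
    exact Finset.sum_congr rfl fun x _ => hcor x
  have s6 : ∑ x, ∑ y, ∑ d, f x * f (x + d) * (f y * f (y + d)) = Q1 f := by
    have : ∀ x : ZMod N, ∑ y, ∑ d, f x * f (x + d) * (f y * f (y + d))
        = ∑ d, ∑ y, f x * f (x + d) * (f y * f (y + d)) := fun x => Finset.sum_comm
    simp_rw [this]
    rw [Finset.sum_comm]
    unfold Q1
    refine Finset.sum_congr rfl fun d _ => ?_
    rw [sq, Finset.sum_mul_sum]
  have s7 := triple_sum f h hh
  rw [s0, s1, s2, s3, s4, s5, s6, s7]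
  ring

end Pool.Agent.H35.Corners
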