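import Mathlib
import Pool.Agent.H35.CornersCount

set_option autoImplicit false

open Finset

namespace Pool.Agent.H35.Corners

section cubes

variable {p : ℕ} [Fact p.Prime]

/-- The subgroup of order `k` of `(ZMod p)ˣ`, as a finset. -/
noncomputable def subS (p k : ℕ) [NeZero p] : Finset (ZMod p) :=
  Finset.univ.filter (fun x => x ^ k = 1)

lemma card_subS (k : ℕ) (hk : 0 < k) (hp : p = 3 * k + 1) : (subS p k).card = k := by
  classical
  obtain ⟨g, hg⟩ := IsCyclic.exists_ofOrder_eq_natCard (α := (ZMod p)ˣ)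
  have hcard : Nat.card (ZMod p)ˣ = 3 * k := by
    rw [Nat.card_eq_fintype_card, ZMod.card_units, hp]
    rfl
  have hprim : IsPrimitiveRoot g (3 * k) := by
    rw [← hcard, ← hg]
    exact IsPrimitiveRoot.orderOf g
  have hprim2 : IsPrimitiveRoot (g ^ 3) k :=
    hprim.pow (by omega) rfl
  have hprim3 : IsPrimitiveRoot ((g ^ 3 : (ZMod p)ˣ) : ZMod p) k :=
    IsPrimitiveRoot.coe_units_iff.mpr hprim2
  have h1 := hprim3.card_nthRootsFinset
  have h2 : subS p k = Polynomial.nthRootsFinset k (1 : ZMod p) := by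
    ext x
    simp only [subS, Finset.mem_filter, Finset.mem_univ, true_and]
    rw [Polynomial.mem_nthRootsFinset hk]
  rw [h2]
  exact h1

lemma ft_ind_bound (k : ℕ) (hk : 0 < k) (hp : p = 3 * k + 1) (r : ZMod p) (hr : r ≠ 0) :
    ‖ft (fun x : ZMod p => if x ∈ subS p k then (1 : ℂ) else 0) r‖ ^ 2 ≤ p := by
  classical
  set s : ZMod p → ℂ := fun x => if x ∈ subS p k then (1 : ℂ) else 0 with hs
  have hne : ∀ u ∈ subS p k, u ≠ 0 := by
    intro u hu h0
    simp only [subS, Finset.mem_filter, Finset.mem_univ, true_and] at hu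
    rw [h0, zero_pow hk.ne'] at hu
    exact zero_ne_one hu
  -- invariance
  have hinv : ∀ u ∈ subS p k, ft s (r * u) = ft s r := by
    intro u hu
    have hu0 := hne u hu
    unfold ft
    refine Fintype.sum_equiv (Equiv.mulLeft₀ u hu0) _ _ fun x => ?_
    have e1 : (Equiv.mulLeft₀ u hu0) x = u * x := rfl
    rw [e1]
    have e2 : r * (u * x) = r * u * x := by ring
    rw [e2]
    congr 1
    simp only [hs, subS, Finset.mem_filter, Finset.mem_univ, true_and]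
    simp only [subS, Finset.mem_filter, Finset.mem_univ, true_and] at hu
    rw [mul_pow, hu, one_mul]
  have hcard := card_subS k hk hp
  have h1 : ∑ u ∈ subS p k, ‖ft s (r * u)‖ ^ 2 = k * ‖ft s r‖ ^ 2 := by
    rw [Finset.sum_congr rfl (fun u hu => by rw [hinv u hu])]
    rw [Finset.sum_const, hcard, nsmul_eq_mul]
  have h2 : ∑ u ∈ subS p k, ‖ft s (r * u)‖ ^ 2 ≤ ∑ t, ‖ft s t‖ ^ 2 := by
    have hinj : Set.InjOn (fun u => r * u) (subS p k : Set (ZMod p)) := by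
      intro u _ v _ huv
      exact mul_left_cancel₀ hr huv
    rw [← Finset.sum_image (f := fun t => ‖ft s t‖ ^ 2) (g := fun u => r * u) hinj]
    exact Finset.sum_le_univ_sum_of_nonneg (fun t => by positivity)
  have h3 : ∑ t, ‖ft s t‖ ^ 2 = p * k := by
    rw [parseval]
    congr 1
    have : ∀ x, ‖s x‖ ^ 2 = if x ∈ subS p k then (1 : ℝ) else 0 := by
      intro x
      simp only [hs]
      split_ifs <;> simp
    simp_rw [this]
    rw [Finset.sum_ite_mem]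
    simp [hcard]
  rw [h1, h3] at h2
  have hkR : (0 : ℝ) < k := by exact_mod_cast hk
  have : (k : ℝ) * ‖ft s r‖ ^ 2 ≤ k * p := by linarith
  exact le_of_mul_le_mul_left this hkR

/-- `f = -1` on the subgroup, `+1` elsewhere. -/
noncomputable def ff (p k : ℕ) [NeZero p] (x : ZMod p) : ℝ := if x ∈ subS p k then -1 else 1

lemma ft_ff_bound (k : ℕ) (hk : 0 < k) (hp : p = 3 * k + 1) (r : ZMod p) :
    ‖ft (fun x => ((ff p k x - 1 / 3 : ℝ) : ℂ)) r‖ ≤ 2 * Real.sqrt p := by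
  classical
  have hp1 : (1 : ℝ) ≤ p := by
    have : 1 ≤ p := by omega
    exact_mod_cast this
  have hsq1 : 1 ≤ Real.sqrt p := by
    rw [Real.one_le_sqrt]
    exact hp1
  have key : ft (fun x => ((ff p k x - 1 / 3 : ℝ) : ℂ)) r
      = (2 / 3) * (∑ x : ZMod p, (ZMod.stdAddChar (r * x) : ℂ))
        - 2 * ft (fun x : ZMod p => if x ∈ subS p k then (1 : ℂ) else 0) r := by
    unfold ft
    rw [Finset.mul_sum, Finset.mul_sum, ← Finset.sum_sub_distrib]
    refine Finset.sum_congr rfl fun x _ => ?_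
    unfold ff
    by_cases hx : x ∈ subS p k
    · simp only [hx, if_true]; push_cast; ring
    · simp only [hx, if_false]; push_cast; ring
  by_cases hr : r = 0
  · subst hr
    rw [key, sum_char]
    have hcard := card_subS k hk hp
    have h2 : ft (fun x : ZMod p => if x ∈ subS p k then (1 : ℂ) else 0) 0 = k := by
      unfold ft
      simp only [zero_mul, AddChar.map_zero_eq_one, mul_one]
      rw [Finset.sum_ite_mem]
      simp [hcard]
    rw [h2]
    have h3 : (2 / 3 : ℂ) * (if (0 : ZMod p) = 0 then (p : ℂ) else 0) - 2 * (k : ℂ)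
        = ((2 / 3 : ℝ) : ℂ) := by
      rw [if_pos rfl]
      have : (p : ℂ) = 3 * k + 1 := by exact_mod_cast congrArg (Nat.cast (R := ℂ)) hp
      rw [this]
      push_cast
      ring
    rw [h3, Complex.norm_real, Real.norm_eq_abs, abs_of_pos (by norm_num)]
    linarith
  · rw [key, sum_char, if_neg hr, mul_zero, zero_sub, norm_neg, norm_mul]
    have h1 := ft_ind_bound k hk hp r hr
    have h2 : ‖ft (fun x : ZMod p => if x ∈ subS p k then (1 : ℂ) else 0) r‖ ≤ Real.sqrt p :=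
      Real.le_sqrt_of_sq_le h1
    have h3 : ‖(2 : ℂ)‖ = 2 := by simp
    rw [h3]
    linarith

end cubes

section final

variable {N : ℕ} [NeZero N]

lemma sum_f_bound (f : ZMod N → ℝ) (K : ℝ)
    (hK : ∀ r, ‖ft (fun x => ((f x - 1 / 3 : ℝ) : ℂ)) r‖ ≤ K) :
    |∑ x, f x - N / 3| ≤ K := by
  have h := hK 0
  have h2 : ft (fun x => ((f x - 1 / 3 : ℝ) : ℂ)) 0 = ((∑ x, f x - N / 3 : ℝ) : ℂ) := by
    unfold ft
    simp only [zero_mul, AddChar.map_zero_eq_one, mul_one]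
    rw [← Complex.ofReal_sum, Finset.sum_sub_distrib]
    simp [ZMod.card]
    ring
  rw [h2, Complex.norm_real, Real.norm_eq_abs] at h
  exact h

lemma fourier_bound (f : ZMod N → ℝ) (hf : ∀ x, f x = 1 ∨ f x = -1) (K : ℝ)
    (hK : ∀ r, ‖ft (fun x => ((f x - 1 / 3 : ℝ) : ℂ)) r‖ ≤ K) (r s : ZMod N)
    (hrs : (r, s) ≠ 0) :
    ‖∑ v ∈ setA f, (ZMod.stdAddChar (r * v.1 + s * v.2) : ℂ)‖ ≤ K * N := by
  have hN : (0 : ℝ) < N := by exact_mod_cast Nat.pos_of_ne_zero (NeZero.ne N)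
  have hK0 : 0 ≤ K := le_trans (norm_nonneg _) (hK 0)
  have hnorm : ∀ t : ZMod N, ‖(ZMod.stdAddChar t : ℂ)‖ = 1 := fun t => by
    rw [ZMod.stdAddChar_apply]; exact Circle.norm_coe _
  set a : ZMod N → ℂ := fun x => (f x : ℂ) * ZMod.stdAddChar (r * x) with ha
  set b : ZMod N → ℂ := fun x => (f x : ℂ) * ZMod.stdAddChar (s * x) with hb
  have habs : ∀ x, ‖(f x : ℂ)‖ = 1 := by
    intro x
    rcases hf x with h | h <;> rw [h] <;> simp
  have ha1 : ∀ x, ‖a x‖ ≤ 1 := by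
    intro x; simp only [ha]; rw [norm_mul, habs, hnorm]; norm_num
  have hb1 : ∀ x, ‖b x‖ ≤ 1 := by
    intro x; simp only [hb]; rw [norm_mul, habs, hnorm]; norm_num
  have hsum : ∑ v ∈ setA f, (ZMod.stdAddChar (r * v.1 + s * v.2) : ℂ)
      = ((∑ x, (ZMod.stdAddChar (r * x) : ℂ)) * (∑ y, (ZMod.stdAddChar (s * y) : ℂ))
        - (∑ x, ∑ y, a x * b y * ((f (x + y) - 1 / 3 : ℝ) : ℂ))
        - (1 / 3) * ((∑ x, a x) * ∑ y, b y)) / 2 := by
    have e1 : ∑ v ∈ setA f, (ZMod.stdAddChar (r * v.1 + s * v.2) : ℂ)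
        = ∑ x, ∑ y, (((if (x, y) ∈ setA f then (1 : ℝ) else 0 : ℝ)) : ℂ)
            * ((ZMod.stdAddChar (r * x) : ℂ) * (ZMod.stdAddChar (s * y) : ℂ)) := by
      rw [← Fintype.sum_prod_type (f := fun v : ZMod N × ZMod N =>
        (((if v ∈ setA f then (1 : ℝ) else 0 : ℝ)) : ℂ)
            * ((ZMod.stdAddChar (r * v.1) : ℂ) * (ZMod.stdAddChar (s * v.2) : ℂ)))]
      rw [← Finset.sum_subset (Finset.subset_univ (setA f))]
      · refine Finset.sum_congr rfl fun v hv => ?_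
        rw [if_pos hv, AddChar.map_add_eq_mul]
        simp
      · intro v _ hv
        rw [if_neg hv]
        simp
    rw [e1]
    have e2 : ∀ x y : ZMod N, (((if (x, y) ∈ setA f then (1 : ℝ) else 0 : ℝ)) : ℂ)
            * ((ZMod.stdAddChar (r * x) : ℂ) * (ZMod.stdAddChar (s * y) : ℂ))
        = ((ZMod.stdAddChar (r * x) : ℂ) * (ZMod.stdAddChar (s * y) : ℂ)
            - a x * b y * ((f (x + y) - 1 / 3 : ℝ) : ℂ) - (1 / 3) * (a x * b y)) / 2 := by
      intro x y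
      rw [ind_eq f hf]
      simp only [ha, hb]
      push_cast
      ring
    simp_rw [e2]
    rw [Finset.sum_mul_sum, Finset.sum_mul_sum]
    simp only [← Finset.sum_div, Finset.sum_sub_distrib, Finset.mul_sum]
  have hchar0 : (∑ x : ZMod N, (ZMod.stdAddChar (r * x) : ℂ))
      * (∑ y : ZMod N, (ZMod.stdAddChar (s * y) : ℂ)) = 0 := by
    rw [sum_char, sum_char]
    by_cases h1 : r = 0
    · have h2 : s ≠ 0 := by
        intro h2; apply hrs; rw [h1, h2]; rfl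
      rw [if_neg h2, mul_zero]
    · rw [if_neg h1, zero_mul]
  have hone : ∀ t : ZMod N, t ≠ 0 →
      ‖∑ x, (f x : ℂ) * (ZMod.stdAddChar (t * x) : ℂ)‖ ≤ K := by
    intro t ht
    have h1 := hK t
    have h2 : ft (fun x => ((f x - 1 / 3 : ℝ) : ℂ)) t
        = ∑ x, (f x : ℂ) * (ZMod.stdAddChar (t * x) : ℂ)
          - (1 / 3) * ∑ x : ZMod N, (ZMod.stdAddChar (t * x) : ℂ) := by
      unfold ft
      rw [Finset.mul_sum, ← Finset.sum_sub_distrib]
      refine Finset.sum_congr rfl fun x _ => ?_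
      push_cast
      ring
    rw [h2, sum_char, if_neg ht, mul_zero, sub_zero] at h1
    exact h1
  have htriv : ∀ d : ZMod N → ℂ, (∀ x, ‖d x‖ ≤ 1) → ‖∑ x, d x‖ ≤ N := by
    intro d hd
    calc ‖∑ x, d x‖ ≤ ∑ x, ‖d x‖ := norm_sum_le _ _
      _ ≤ ∑ _x : ZMod N, (1 : ℝ) := Finset.sum_le_sum fun x _ => hd x
      _ = N := by simp [ZMod.card]
  have hprod : ‖(∑ x, a x) * ∑ y, b y‖ ≤ K * N := by
    rw [norm_mul]
    by_cases h1 : r = 0
    · have h2 : s ≠ 0 := by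
        intro h2; apply hrs; rw [h1, h2]; rfl
      rw [mul_comm]
      exact mul_le_mul (hone s h2) (htriv a ha1) (norm_nonneg _) hK0
    · exact mul_le_mul (hone r h1) (htriv b hb1) (norm_nonneg _) hK0
  have htri := trilinear_bound a b (fun x => ((f x - 1 / 3 : ℝ) : ℂ)) K ha1 hb1 hK
  rw [hsum, hchar0, zero_sub, norm_div]
  have h2 : ‖(2 : ℂ)‖ = 2 := by simp
  rw [h2, div_le_iff₀ (by norm_num)]
  have h3 : ‖(1 / 3 : ℂ) * ((∑ x, a x) * ∑ y, b y)‖ ≤ (1 / 3) * (K * N) := by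
    rw [norm_mul]
    have : ‖(1 / 3 : ℂ)‖ = 1 / 3 := by
      rw [norm_div]; simp
    rw [this]
    exact mul_le_mul_of_nonneg_left hprod (by norm_num)
  calc ‖-(∑ x, ∑ y, a x * b y * ((f (x + y) - 1 / 3 : ℝ) : ℂ))
          - (1 / 3) * ((∑ x, a x) * ∑ y, b y)‖
      ≤ ‖-(∑ x, ∑ y, a x * b y * ((f (x + y) - 1 / 3 : ℝ) : ℂ))‖
        + ‖(1 / 3 : ℂ) * ((∑ x, a x) * ∑ y, b y)‖ := norm_sub_le _ _
    _ ≤ K * N + (1 / 3) * (K * N) := by
        rw [norm_neg]
        exact add_le_add htri h3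
    _ ≤ K * N * 2 := by
        have : 0 ≤ K * N := mul_nonneg hK0 hN.le
        linarith

/-- Putting the estimates together. -/
lemma final_count (f : ZMod N → ℝ) (hf : ∀ x, f x = 1 ∨ f x = -1) (K : ℝ) (h : ZMod N)
    (hh : 2 * h = 1)
    (hK : ∀ r, ‖ft (fun x => ((f x - 1 / 3 : ℝ) : ℂ)) r‖ ≤ K) :
    (((Finset.univ : Finset (ZMod N × ZMod N × ZMod N)).filter
      (fun t : ZMod N × ZMod N × ZMod N =>
        (t.1, t.2.1) ∈ setA f ∧ (t.1 + t.2.2, t.2.1) ∈ setA f ∧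
          (t.1, t.2.1 + t.2.2) ∈ setA f)).card : ℝ)
      ≤ (N : ℝ) ^ 3 / 9 + K * N ^ 2 := by
  have hN : (0 : ℝ) < N := by exact_mod_cast Nat.pos_of_ne_zero (NeZero.ne N)
  have hK0 : 0 ≤ K := le_trans (norm_nonneg _) (hK 0)
  have hf1 : ∀ x, |f x| ≤ 1 := by
    intro x
    rcases hf x with h | h <;> rw [h] <;> simp
  rw [corner_count f hf h hh]
  have h1 := abs_le.mp (T1_bound f K hf1 hK)
  have h2 := abs_le.mp (Q1_bound f K hf1 hK)
  have h3 := abs_le.mp (sum_f_bound f K hK)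
  set F := ∑ x, f x with hF
  obtain ⟨h1a, h1b⟩ := h1
  obtain ⟨h2a, h2b⟩ := h2
  obtain ⟨h3a, h3b⟩ := h3
  -- N T1 ≥ N (F²/3 - K N)
  have e1 : N * (F ^ 2 / 3 - K * N) ≤ N * T1 f := by
    apply mul_le_mul_of_nonneg_left _ hN.le
    linarith
  -- F² ≥ N²/9 - 2 K N / 3
  have e2 : (N : ℝ) ^ 2 / 9 - 2 * K * N / 3 ≤ F ^ 2 := by
    have : 0 ≤ (F - N / 3) ^ 2 := sq_nonneg _
    have h5 : F ^ 2 = (F - N / 3) ^ 2 + 2 * (F - N / 3) * (N / 3) + (N / 3) ^ 2 := by ring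
    have h6 : -K * (N / 3) ≤ (F - N / 3) * (N / 3) :=
      mul_le_mul_of_nonneg_right (by linarith) (by positivity)
    rw [h5]
    nlinarith
  have e3 : N * ((N : ℝ) ^ 2 / 9 - 2 * K * N / 3) ≤ N * F ^ 2 :=
    mul_le_mul_of_nonneg_left e2 hN.le
  have e4 : 0 ≤ K * (N : ℝ) ^ 2 := by positivity
  nlinarith

lemma final_card (f : ZMod N → ℝ) (hf : ∀ x, f x = 1 ∨ f x = -1) (K : ℝ)
    (hK : ∀ r, ‖ft (fun x => ((f x - 1 / 3 : ℝ) : ℂ)) r‖ ≤ K) :
    |((setA f).card : ℝ) - 13 / 27 * (N : ℝ) ^ 2| ≤ K * N := by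
  have hN : (0 : ℝ) < N := by exact_mod_cast Nat.pos_of_ne_zero (NeZero.ne N)
  have hK0 : 0 ≤ K := le_trans (norm_nonneg _) (hK 0)
  have hf1 : ∀ x, |f x| ≤ 1 := by
    intro x
    rcases hf x with h | h <;> rw [h] <;> simp
  rw [card_setA f hf]
  have h1 := abs_le.mp (T1_bound f K hf1 hK)
  have h3 := abs_le.mp (sum_f_bound f K hK)
  have hF2 : |∑ x, f x| ≤ N := by
    calc |∑ x, f x| ≤ ∑ x, |f x| := Finset.abs_sum_le_sum_abs _ _
      _ ≤ ∑ _x : ZMod N, (1 : ℝ) := Finset.sum_le_sum fun x _ => hf1 x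
      _ = N := by simp [ZMod.card]
  have h4 := abs_le.mp hF2
  set F := ∑ x, f x with hF
  obtain ⟨h1a, h1b⟩ := h1
  obtain ⟨h3a, h3b⟩ := h3
  obtain ⟨h4a, h4b⟩ := h4
  -- |F² - N²/9| ≤ K (4 N / 3)
  have h5 : |F ^ 2 - (N : ℝ) ^ 2 / 9| ≤ K * (4 * N / 3) := by
    have : F ^ 2 - (N : ℝ) ^ 2 / 9 = (F - N / 3) * (F + N / 3) := by ring
    rw [this, abs_mul]
    refine mul_le_mul (abs_le.mpr ⟨h3a, h3b⟩) ?_ (abs_nonneg _) hK0
    rw [abs_le]
    constructor <;> linarith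
  obtain ⟨h5a, h5b⟩ := abs_le.mp h5
  have e4 : 0 ≤ K * (N : ℝ) := by positivity
  rw [abs_le]
  constructor <;> nlinarith

end final

end Pool.Agent.H35.Corners
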